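import Pool.Agent.Results.MP_f6aace_co.EightVertices

set_option autoImplicit false

/-!
# A graph with DP-chromatic number five that is not partially DP-nice
-/

namespace Pool.Agent.Results.MP_a5c736_co.KFive

open Pool.Agent.Results.MP_f6aace_co.EightVertices (IsCover chiDP alphaDP)

/-- `G` is partially DP-nice: `t |V(G)| / χ_DP(G) ≤ α_t(G)` for every `t` from `1` to `χ_DP(G)`. -/
def IsPartiallyNice {V : Type} (G : SimpleGraph V) : Prop :=
  ∀ t : ℕ, 1 ≤ t → t ≤ chiDP G → (t : ℝ) * (Nat.card V : ℝ) / (chiDP G : ℝ) ≤ (alphaDP t G : ℝ)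

theorem result : ∃ G : SimpleGraph (Fin 8), chiDP G = 5 ∧ ¬ IsPartiallyNice G := by
  obtain ⟨G, h5, -, -, h⟩ := Pool.Agent.Results.MP_f6aace_co.EightVertices.result
  refine ⟨G, h5, fun hn => ?_⟩
  have h2 := hn 2 (by norm_num) (by rw [h5]; norm_num)
  push_cast at h2
  linarith

end Pool.Agent.Results.MP_a5c736_co.KFive
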